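import Pool.Agent.H94.T1.S6

/-!
# T1: the resultant
-/

set_option autoImplicit false

namespace Pool.T1

open Polynomial Matrix Pool.HYP Pool.TOW Pool.AVS IsDedekindDomain

namespace RSLKaux

variable {R : Type} [CommRing R] {K : Type} [Field K] [Algebra R K] {O : ValuationSubring K}
  {π : K}

theorem Lm_zero (m : ℤ) : (0 : R) ∈ Lm R O π m := by
  change algebraMap R K 0 * π ^ m ∈ O
  rw [map_zero, zero_mul]
  exact O.zero_mem

theorem Lm_mono (hπ : π ∈ O) {a b : ℕ} (hab : a ≤ b) {x : R}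
    (hx : x ∈ Lm R O π (a : ℤ)) : x ∈ Lm R O π (b : ℤ) := by
  obtain ⟨c, rfl⟩ := Nat.exists_eq_add_of_le hab
  change algebraMap R K x * π ^ ((a + c : ℕ) : ℤ) ∈ O
  have h1 : algebraMap R K x * π ^ ((a + c : ℕ) : ℤ) = algebraMap R K x * π ^ (a : ℤ) * π ^ c := by
    rw [zpow_natCast, zpow_natCast, pow_add, mul_assoc]
  rw [h1]
  exact O.mul_mem _ _ hx (pow_mem hπ c)

theorem Lm_sum {ι : Type} (s : Finset ι) (f : ι → R) (m : ℤ) (h : ∀ i ∈ s, f i ∈ Lm R O π m) :
    ∑ i ∈ s, f i ∈ Lm R O π m := by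
  change algebraMap R K (∑ i ∈ s, f i) * π ^ m ∈ O
  rw [map_sum, Finset.sum_mul]
  exact O.sum_mem h

theorem Lm_prod {ι : Type} (s : Finset ι) (f : ι → R) (B : ℕ)
    (h : ∀ i ∈ s, f i ∈ Lm R O π (B : ℤ)) :
    ∏ i ∈ s, f i ∈ Lm R O π ((s.card * B : ℕ) : ℤ) := by
  change algebraMap R K (∏ i ∈ s, f i) * π ^ ((s.card * B : ℕ) : ℤ) ∈ O
  have h1 : algebraMap R K (∏ i ∈ s, f i) * π ^ ((s.card * B : ℕ) : ℤ) =
      ∏ i ∈ s, (algebraMap R K (f i) * π ^ (B : ℤ)) := by
    rw [Finset.prod_mul_distrib, Finset.prod_const, map_prod, zpow_natCast, zpow_natCast,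
      ← pow_mul, mul_comm B]
  rw [h1]
  exact prod_mem h

theorem Lm_det {ι : Type} [Fintype ι] [DecidableEq ι] (M : Matrix ι ι R) (B : ℕ)
    (hM : ∀ i j, M i j ∈ Lm R O π (B : ℤ)) :
    M.det ∈ Lm R O π ((Fintype.card ι * B : ℕ) : ℤ) := by
  rw [Matrix.det_apply]
  apply Lm_sum
  intro σ _
  have h1 : (∏ i, M (σ i) i) ∈ Lm R O π ((Fintype.card ι * B : ℕ) : ℤ) := by
    have h2 := Lm_prod (Finset.univ : Finset ι) (fun i => M (σ i) i) B fun i _ => hM (σ i) i
    rw [Finset.card_univ] at h2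
    exact h2
  rcases Int.units_eq_one_or (Equiv.Perm.sign σ) with h | h
  · rw [h, one_smul]; exact h1
  · rw [h, Units.neg_smul, one_smul]
    change algebraMap R K (-(∏ i, M (σ i) i)) * π ^ ((Fintype.card ι * B : ℕ) : ℤ) ∈ O
    rw [map_neg, neg_mul]
    exact O.neg_mem _ h1

end RSLKaux

open RSLKaux in
theorem rslk : RSLKStmt := by
  intro R _ _ K _ _ _ O π hGR G H k B hG hH hGN hHN hc
  have hinj : Function.Injective (algebraMap R K) := IsFractionRing.injective R K
  by_cases h0 : G.natDegree ≠ 0 ∨ H.natDegree ≠ 0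
  · obtain ⟨a, b, _, _, e⟩ := exists_mul_add_mul_eq_C_resultant G H le_rfl le_rfl h0
    refine ⟨resultant G H, a, b, ?_, ?_, by rw [← e]; ring⟩
    · intro hR
      have h1 : resultant (fk K G) (fk K H) G.natDegree H.natDegree = 0 := by
        rw [resultant_map_map, hR, map_zero]
      have hGd : (fk K G).natDegree = G.natDegree := natDegree_map_eq_of_injective hinj _
      have hHd : (fk K H).natDegree = H.natDegree := natDegree_map_eq_of_injective hinj _
      rw [← hGd, ← hHd] at h1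
      exact (resultant_eq_zero_iff.1 h1).2 hc
    · unfold resultant
      refine Lm_mono hGR.pi_mem ?_ (Lm_det _ B ?_)
      · rw [Fintype.card_fin]
        exact Nat.mul_le_mul_right _ (by omega)
      · intro i j
        induction j using Fin.addCases with
        | left j =>
          simp only [sylvester, Matrix.of_apply, Fin.addCases_left]
          split_ifs
          · exact hHN _
          · exact Lm_zero _
        | right j =>
          simp only [sylvester, Matrix.of_apply, Fin.addCases_right]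
          split_ifs
          · exact hGN _
          · exact Lm_zero _
  · push Not at h0
    obtain ⟨h1, h2⟩ := h0
    obtain ⟨r, hr⟩ := natDegree_eq_zero.1 h1
    obtain ⟨s, hs⟩ := natDegree_eq_zero.1 h2
    have hle : B ≤ (2 * k + 1) * B := by
      calc B = 1 * B := (one_mul B).symm
        _ ≤ (2 * k + 1) * B := Nat.mul_le_mul_right _ (by omega)
    by_cases hr0 : r = 0
    · refine ⟨s, 0, 1, ?_, ?_, by rw [← hs]; ring⟩
      · intro hs0
        rw [← hr, ← hs, hr0, hs0] at hc
        obtain ⟨a, b, e⟩ := hc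
        simp at e
      · have h3 := hHN 0
        rw [← hs, coeff_C_zero] at h3
        exact Lm_mono hGR.pi_mem hle h3
    · refine ⟨r, 1, 0, hr0, ?_, by rw [← hr]; ring⟩
      have h3 := hGN 0
      rw [← hr, coeff_C_zero] at h3
      exact Lm_mono hGR.pi_mem hle h3

end Pool.T1
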